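import Mathlib
import Pool.Agent.Lib_helper98.LISSub

/-!
# The expected longest chain in a box

For a product set `Q` of area `v` and every `k` one has `G Q ≤ k + v ^ k / (k!) ^ 2`.
-/

set_option autoImplicit false

open MeasureTheory Set Filter Topology

namespace Pool.Agent.LISB28

open Pool.Agent.Lib_helper98.LIS

/-- Permute the second coordinates. -/
def tw {n : ℕ} (σ : Equiv.Perm (Fin n)) (x : Fin n → ℝ × ℝ) : Fin n → ℝ × ℝ :=
  fun i => ((x i).1, (x (σ i)).2)

lemma measurePreserving_tw {n : ℕ} (σ : Equiv.Perm (Fin n)) :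
    MeasurePreserving (tw σ) := by
  have h1 := volume_measurePreserving_arrowProdEquivProdArrow ℝ ℝ (Fin n)
  have h2 : MeasurePreserving (fun y : Fin n → ℝ => fun i => y (σ i)) := by
    exact volume_preserving_arrowCongr' σ.symm (MeasurableEquiv.refl ℝ)
      (MeasurePreserving.id volume)
  have h3 := (MeasurePreserving.id (volume : Measure (Fin n → ℝ))).prod h2
  have h4 := (h1.symm).comp (h3.comp h1)
  exact h4

lemma measurableSet_Good {n : ℕ} (s : Finset (Fin n)) :
    MeasurableSet {x : Fin n → ℝ × ℝ | Good univ x s} := by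
  classical
  have h1 : {x : Fin n → ℝ × ℝ | Good univ x s} =
      ⋂ i ∈ s, ⋂ j ∈ s, ⋂ (_ : i ≠ j), {x : Fin n → ℝ × ℝ | Comp (x i) (x j)} := by
    ext x
    simp [Good]
  rw [h1]
  refine Finset.measurableSet_biInter _ fun i _ => Finset.measurableSet_biInter _ fun j _ =>
      MeasurableSet.iInter fun _ => ?_
  unfold Comp
  have e1 : ∀ i : Fin n, Measurable fun x : Fin n → ℝ × ℝ => (x i).1 := fun i =>
    measurable_fst.comp (measurable_pi_apply i)
  have e2 : ∀ i : Fin n, Measurable fun x : Fin n → ℝ × ℝ => (x i).2 := fun i =>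
    measurable_snd.comp (measurable_pi_apply i)
  exact ((measurableSet_lt (e1 i) (e1 j)).inter (measurableSet_lt (e2 i) (e2 j))).union
    ((measurableSet_lt (e1 j) (e1 i)).inter (measurableSet_lt (e2 j) (e2 i)))

/-- In a chain the order of the first coordinates is that of the second ones. -/
lemma Good_lt_iff {n : ℕ} {x : Fin n → ℝ × ℝ} {s : Finset (Fin n)} (h : Good univ x s)
    {i j : Fin n} (hi : i ∈ s) (hj : j ∈ s) : (x j).1 < (x i).1 ↔ (x j).2 < (x i).2 := by
  by_cases hij : i = j
  · subst hij; simp
  · rcases h.2 i hi j hj hij with h | h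
    · exact ⟨fun h' => absurd (h'.trans h.1) (lt_irrefl _), fun h' => absurd (h'.trans h.2)
        (lt_irrefl _)⟩
    · exact ⟨fun _ => h.2, fun _ => h.1⟩

/-- Two different permutations of the second coordinates cannot both give a chain. -/
lemma tw_inj {n : ℕ} {x : Fin n → ℝ × ℝ} {s : Finset (Fin n)} {σ τ : Equiv.Perm s}
    (h1 : Good univ (tw (Equiv.Perm.ofSubtype σ) x) s)
    (h2 : Good univ (tw (Equiv.Perm.ofSubtype τ) x) s) : σ = τ := by
  classical
  -- the rank of the second coordinate
  let rk : Fin n → ℕ := fun i => (s.filter fun u => (x u).2 < (x i).2).card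
  have key : ∀ (ρ : Equiv.Perm s) (_ : Good univ (tw (Equiv.Perm.ofSubtype ρ) x) s) (i : s),
      rk (ρ i) = (s.filter fun j => (x j).1 < (x i).1).card := by
    intro ρ hρ i
    symm
    apply Finset.card_bij (fun j _ => Equiv.Perm.ofSubtype ρ j)
    · intro j hj
      obtain ⟨hj1, hj2⟩ := Finset.mem_filter.1 hj
      have e : Equiv.Perm.ofSubtype ρ j = ρ ⟨j, hj1⟩ := Equiv.Perm.ofSubtype_apply_of_mem ρ hj1
      have e' : Equiv.Perm.ofSubtype ρ (i : Fin n) = ρ i := by
        simp [Equiv.Perm.ofSubtype_apply_coe]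
      rw [Finset.mem_filter]
      refine ⟨by rw [e]; exact (ρ ⟨j, hj1⟩).2, ?_⟩
      have := (Good_lt_iff hρ i.2 hj1).1 hj2
      simp only [tw] at this
      rw [e'] at this
      exact this
    · intro a _ b _ hab
      exact (Equiv.Perm.ofSubtype ρ).injective hab
    · intro b hb
      obtain ⟨hb1, hb2⟩ := Finset.mem_filter.1 hb
      refine ⟨(ρ.symm ⟨b, hb1⟩ : s), ?_, ?_⟩
      · rw [Finset.mem_filter]
        refine ⟨(ρ.symm ⟨b, hb1⟩).2, ?_⟩
        have h := (Good_lt_iff hρ i.2 (ρ.symm ⟨b, hb1⟩).2).2
        simp only [tw, Equiv.Perm.ofSubtype_apply_coe, Equiv.apply_symm_apply] at h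
        exact h hb2
      · simp [Equiv.Perm.ofSubtype_apply_coe]
  -- the rank is injective on `s`
  have hinj : ∀ a ∈ s, ∀ b ∈ s, rk a = rk b → a = b := by
    intro a ha b hb hab
    by_contra hne
    have hyne : (x a).2 ≠ (x b).2 := by
      -- `a = ofSubtype σ i`, `b = ofSubtype σ j`
      have h := h1.2 (σ.symm ⟨a, ha⟩ : s) (σ.symm ⟨a, ha⟩).2 (σ.symm ⟨b, hb⟩ : s)
        (σ.symm ⟨b, hb⟩).2 (by
          intro h
          have := σ.symm.injective (Subtype.ext h)
          exact hne (congrArg Subtype.val this))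
      unfold Comp at h
      simp only [tw, Equiv.Perm.ofSubtype_apply_coe, Equiv.apply_symm_apply] at h
      rcases h with h | h
      · exact h.2.ne
      · exact h.2.ne'
    rcases lt_or_gt_of_ne hyne with h | h
    · have : rk a < rk b := by
        apply Finset.card_lt_card
        rw [Finset.ssubset_iff_of_subset]
        · exact ⟨a, Finset.mem_filter.2 ⟨ha, h⟩, fun h' => lt_irrefl _ (Finset.mem_filter.1 h').2⟩
        · intro u hu
          obtain ⟨hu1, hu2⟩ := Finset.mem_filter.1 hu
          exact Finset.mem_filter.2 ⟨hu1, hu2.trans h⟩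
      omega
    · have : rk b < rk a := by
        apply Finset.card_lt_card
        rw [Finset.ssubset_iff_of_subset]
        · exact ⟨b, Finset.mem_filter.2 ⟨hb, h⟩, fun h' => lt_irrefl _ (Finset.mem_filter.1 h').2⟩
        · intro u hu
          obtain ⟨hu1, hu2⟩ := Finset.mem_filter.1 hu
          exact Finset.mem_filter.2 ⟨hu1, hu2.trans h⟩
      omega
  ext i
  have := hinj (σ i) (σ i).2 (τ i) (τ i).2 ((key σ h1 i).trans (key τ h2 i).symm)
  exact congrArg Fin.val this

/-- The probability that the points with indices in `s` form a chain is at most `1 / |s|!`. -/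
lemma volume_Good_le {n : ℕ} {S T : Set ℝ} (hS : MeasurableSet S) (hT : MeasurableSet T)
    (hfin : volume (S ×ˢ T) ≠ ⊤) (s : Finset (Fin n)) :
    (s.card.factorial : ℝ) * volume.real ({x : Fin n → ℝ × ℝ | Good univ x s} ∩
      Set.univ.pi (fun _ : Fin n => S ×ˢ T)) ≤ (volume.real (S ×ˢ T)) ^ n := by
  classical
  set E := {x : Fin n → ℝ × ℝ | Good univ x s} with hE
  set B := Set.univ.pi (fun _ : Fin n => S ×ˢ T) with hB
  have hEm : MeasurableSet E := measurableSet_Good s
  have hBm : MeasurableSet B := MeasurableSet.univ_pi fun _ => hS.prod hT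
  have hBfin : volume B ≠ ⊤ := volume_pi_ne_top fun _ => hfin
  have hpre : ∀ σ : Equiv.Perm (Fin n), tw σ ⁻¹' B = B := by
    intro σ
    ext x
    simp only [hB, Set.mem_preimage, Set.mem_pi, Set.mem_univ, forall_true_left, tw, Set.mem_prod]
    constructor
    · intro h i
      refine ⟨(h i).1, ?_⟩
      have := (h (σ.symm i)).2
      rwa [Equiv.apply_symm_apply] at this
    · intro h i
      exact ⟨(h i).1, (h (σ i)).2⟩
  have hvol : ∀ σ : Equiv.Perm s, volume.real ((tw (Equiv.Perm.ofSubtype σ)) ⁻¹' (E ∩ B))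
      = volume.real (E ∩ B) := by
    intro σ
    rw [measureReal_def, measureReal_def,
      (measurePreserving_tw _).measure_preimage (hEm.inter hBm).nullMeasurableSet]
  have hcard : Fintype.card (Equiv.Perm s) = s.card.factorial := by
    rw [Fintype.card_perm, Fintype.card_coe]
  have hsum : ∑ σ : Equiv.Perm s, volume.real ((tw (Equiv.Perm.ofSubtype σ)) ⁻¹' (E ∩ B))
      = (s.card.factorial : ℝ) * volume.real (E ∩ B) := by
    rw [Finset.sum_congr rfl fun σ _ => hvol σ, Finset.sum_const, Finset.card_univ, hcard,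
      nsmul_eq_mul]
  rw [← hsum, ← volume_real_pi n (S ×ˢ T), ← hB,
    ← measureReal_biUnion_finset (fun σ _ τ _ hne => ?_) (fun σ _ => ?_) (fun σ _ => ?_)]
  · apply measureReal_mono _ hBfin
    intro x hx
    obtain ⟨σ, -, hx⟩ := Set.mem_iUnion₂.1 hx
    rw [← hpre (Equiv.Perm.ofSubtype σ)]
    exact hx.2
  · rw [Function.onFun, Set.disjoint_left]
    intro x hx hx'
    exact hne (tw_inj hx.1 hx'.1)
  · exact (measurePreserving_tw _).measurable (hEm.inter hBm)
  · rw [(measurePreserving_tw _).measure_preimage (hEm.inter hBm).nullMeasurableSet]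
    exact ne_top_of_le_ne_top hBfin (measure_mono Set.inter_subset_right)

/-- The longest chain is at most `k` plus the number of chains of size `k`. -/
lemma LA_le_card_add {n : ℕ} (x : Fin n → ℝ × ℝ) (k : ℕ) (hk0 : 0 < k) :
    (LA univ x : ℝ) ≤ k + ∑ s ∈ Finset.powersetCard k (Finset.univ : Finset (Fin n)),
      Set.indicator {x : Fin n → ℝ × ℝ | Good univ x s} (fun _ => (1 : ℝ)) x := by
  classical
  have hsum : ∑ s ∈ Finset.powersetCard k (Finset.univ : Finset (Fin n)),
      Set.indicator {x : Fin n → ℝ × ℝ | Good univ x s} (fun _ => (1 : ℝ)) x =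
      (((Finset.powersetCard k (Finset.univ : Finset (Fin n))).filter fun s =>
        Good univ x s).card : ℝ) := by
    rw [Finset.card_filter]
    push_cast
    apply Finset.sum_congr rfl
    intro s _
    simp [Set.indicator_apply]
  rw [hsum]
  obtain ⟨t, ht, ht'⟩ := exists_LA univ x
  rw [← ht']
  rcases k with _ | k
  · exact absurd hk0 (lt_irrefl 0)
  · by_cases hk : t.card ≤ k + 1
    · have : (t.card : ℝ) ≤ ((k + 1 : ℕ) : ℝ) := by exact_mod_cast hk
      have h2 : (0 : ℝ) ≤ (((Finset.powersetCard (k + 1) (Finset.univ : Finset (Fin n))).filter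
        fun s => Good univ x s).card : ℝ) := Nat.cast_nonneg _
      linarith
    · push Not at hk
      obtain ⟨u, hu, hu'⟩ := Finset.exists_subset_card_eq (show k ≤ t.card by omega)
      have hle : (t \ u).card ≤ ((Finset.powersetCard (k + 1)
          (Finset.univ : Finset (Fin n))).filter fun s => Good univ x s).card := by
        apply Finset.card_le_card_of_injOn (fun i => insert i u)
        · intro i hi
          have hi' := Finset.mem_sdiff.1 hi
          simp only [Finset.coe_filter, Finset.mem_powersetCard, Finset.subset_univ, true_and,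
            Set.mem_ofPred_eq]
          refine ⟨by rw [Finset.card_insert_of_notMem hi'.2, hu'], ?_⟩
          have hsub : insert i u ⊆ t := Finset.insert_subset hi'.1 hu
          exact ⟨fun j hj => mem_univ _, fun a ha b hb hab => ht.2 a (hsub ha) b (hsub hb) hab⟩
        · intro i hi j hj hij
          have hi' := Finset.mem_sdiff.1 hi
          have hj' := Finset.mem_sdiff.1 hj
          simp only at hij
          have : i ∈ insert j u := by rw [← hij]; exact Finset.mem_insert_self i u
          rcases Finset.mem_insert.1 this with h | h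
          · exact h
          · exact absurd h hi'.2
      rw [Finset.card_sdiff_of_subset hu, hu'] at hle
      have : t.card ≤ (k + 1) + ((Finset.powersetCard (k + 1)
          (Finset.univ : Finset (Fin n))).filter fun s => Good univ x s).card := by omega
      exact_mod_cast this

/-- The integral of the longest chain over the `n`-tuples of points of a box. -/
lemma I_box_le {S T : Set ℝ} (hS : MeasurableSet S) (hT : MeasurableSet T)
    (hfin : volume (S ×ˢ T) ≠ ⊤) (k : ℕ) (hk : 0 < k) (n : ℕ) :
    I (S ×ˢ T) n ≤ k * (volume.real (S ×ˢ T)) ^ n +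
      (n.choose k : ℝ) * (volume.real (S ×ˢ T)) ^ n / (k.factorial : ℝ) := by
  classical
  set Q := S ×ˢ T with hQ
  set B := Set.univ.pi (fun _ : Fin n => Q) with hB
  have hBm : MeasurableSet B := MeasurableSet.univ_pi fun _ => hS.prod hT
  have hBfin : volume B ≠ ⊤ := volume_pi_ne_top fun _ => hfin
  have hint : ∀ s ∈ Finset.powersetCard k (Finset.univ : Finset (Fin n)),
      IntegrableOn (Set.indicator {x : Fin n → ℝ × ℝ | Good univ x s} (fun _ => (1 : ℝ))) B :=
    fun s _ => (integrableOn_const hBfin).indicator (measurableSet_Good s)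
  have hF : (0 : ℝ) < k.factorial := by positivity
  have hc : Integrable (fun _ : Fin n → ℝ × ℝ => (k : ℝ)) (volume.restrict B) :=
    integrableOn_const hBfin
  have hsm : Integrable (fun x : Fin n → ℝ × ℝ =>
      ∑ s ∈ Finset.powersetCard k (Finset.univ : Finset (Fin n)),
      Set.indicator {x : Fin n → ℝ × ℝ | Good univ x s} (fun _ => (1 : ℝ)) x)
      (volume.restrict B) := integrable_finsetSum _ hint
  calc I Q n ≤ ∫ x in B, ((k : ℝ) + ∑ s ∈ Finset.powersetCard k (Finset.univ : Finset (Fin n)),
      Set.indicator {x : Fin n → ℝ × ℝ | Good univ x s} (fun _ => (1 : ℝ)) x) := by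
        apply setIntegral_mono_on (integrableOn_LA MeasurableSet.univ hBfin) _ hBm
        · intro x _
          exact LA_le_card_add x k hk
        · exact hc.add hsm
    _ = k * (volume.real Q) ^ n + ∑ s ∈ Finset.powersetCard k (Finset.univ : Finset (Fin n)),
        volume.real ({x : Fin n → ℝ × ℝ | Good univ x s} ∩ B) := by
        rw [integral_add hc hsm, integral_finsetSum _ hint, setIntegral_const, hB, volume_real_pi,
          smul_eq_mul, mul_comm]
        congr 1
        apply Finset.sum_congr rfl
        intro s _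
        rw [integral_indicator (measurableSet_Good s), setIntegral_const, smul_eq_mul, mul_one,
          measureReal_restrict_apply (measurableSet_Good s)]
    _ ≤ k * (volume.real Q) ^ n + ∑ s ∈ Finset.powersetCard k (Finset.univ : Finset (Fin n)),
        (volume.real Q) ^ n / (k.factorial : ℝ) := by
        apply add_le_add_right
        apply Finset.sum_le_sum
        intro s hs
        rw [le_div_iff₀ hF, mul_comm]
        have := volume_Good_le hS hT hfin s
        rw [(Finset.mem_powersetCard.1 hs).2] at this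
        exact this
    _ = _ := by
        rw [Finset.sum_const, Finset.card_powersetCard, Finset.card_univ, Fintype.card_fin,
          nsmul_eq_mul, mul_div_assoc]

lemma hasSum_choose (v : ℝ) (k : ℕ) :
    HasSum (fun n : ℕ => (n.choose k : ℝ) * v ^ n / (n.factorial : ℝ))
      (v ^ k / (k.factorial : ℝ) * Real.exp v) := by
  rw [← hasSum_nat_add_iff' k]
  have h0 : ∑ i ∈ Finset.range k, ((i.choose k : ℝ) * v ^ i / (i.factorial : ℝ)) = 0 := by
    apply Finset.sum_eq_zero
    intro i hi
    rw [Nat.choose_eq_zero_of_lt (Finset.mem_range.1 hi)]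
    simp
  rw [h0, sub_zero]
  have h1 : HasSum (fun n : ℕ => v ^ n / (n.factorial : ℝ)) (Real.exp v) := by
    rw [Real.exp_eq_exp_ℝ]
    exact NormedSpace.expSeries_div_hasSum_exp v
  suffices hE : (fun m : ℕ => ((m + k).choose k : ℝ) * v ^ (m + k) / ((m + k).factorial : ℝ)) =
      fun m : ℕ => v ^ k / (k.factorial : ℝ) * (v ^ m / (m.factorial : ℝ)) by
    rw [hE]
    exact h1.mul_left (v ^ k / (k.factorial : ℝ))
  ext m
  have h2 : ((m + k).choose k : ℝ) * ((k.factorial : ℝ) * (m.factorial : ℝ)) =
      ((m + k).factorial : ℝ) := by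
    have := Nat.choose_mul_factorial_mul_factorial (Nat.le_add_left k m)
    rw [Nat.add_sub_cancel] at this
    rw [← mul_assoc]
    exact_mod_cast this
  have hk : (k.factorial : ℝ) ≠ 0 := by positivity
  have hm : (m.factorial : ℝ) ≠ 0 := by positivity
  have hc : ((m + k).choose k : ℝ) ≠ 0 := by
    have : 0 < (m + k).choose k := Nat.choose_pos (Nat.le_add_left k m)
    positivity
  rw [← h2, pow_add]
  field_simp

/-- The expected longest chain in a box of area `v` is at most `k + v ^ k / (k!) ^ 2`. -/
lemma G_box_le {S T : Set ℝ} (hS : MeasurableSet S) (hT : MeasurableSet T)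
    (hfin : volume (S ×ˢ T) ≠ ⊤) (k : ℕ) (hk : 0 < k) :
    G (S ×ˢ T) ≤ k + (volume.real (S ×ˢ T)) ^ k / (k.factorial : ℝ) ^ 2 := by
  set v := volume.real (S ×ˢ T) with hv
  have h1 : HasSum (fun n : ℕ => v ^ n / (n.factorial : ℝ)) (Real.exp v) := by
    rw [Real.exp_eq_exp_ℝ]
    exact NormedSpace.expSeries_div_hasSum_exp v
  have h2 := ((h1.mul_left (k : ℝ)).add
    ((hasSum_choose v k).mul_left (1 / (k.factorial : ℝ)))).mul_left (Real.exp (-v))
  have hA : HasSum (fun n : ℕ => Real.exp (-v) / (n.factorial : ℝ) * I (S ×ˢ T) n)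
      (G (S ×ˢ T)) := by
    have h0 := summable_I (hS.prod hT) hfin
    have h6 : Summable (fun n : ℕ => Real.exp (-v) / (n.factorial : ℝ) * I (S ×ˢ T) n) :=
      (h0.mul_left (Real.exp (-v))).congr fun n => by ring
    exact h6.hasSum
  have h3 := hasSum_le (fun n => ?_) hA h2
  · refine h3.trans (le_of_eq ?_)
    have e : Real.exp (-v) * Real.exp v = 1 := by rw [← Real.exp_add]; simp
    calc Real.exp (-v) * (k * Real.exp v + 1 / (k.factorial : ℝ) *
          (v ^ k / (k.factorial : ℝ) * Real.exp v))
        = (Real.exp (-v) * Real.exp v) * (k + v ^ k / (k.factorial : ℝ) ^ 2) := by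
          field_simp
      _ = _ := by rw [e, one_mul]
  · have h4 := I_box_le hS hT hfin k hk n
    rw [← hv] at h4
    have h5 : Real.exp (-v) / (n.factorial : ℝ) * I (S ×ˢ T) n ≤
      Real.exp (-v) / (n.factorial : ℝ) * (k * v ^ n +
      (n.choose k : ℝ) * v ^ n / (k.factorial : ℝ)) :=
      mul_le_mul_of_nonneg_left h4 (by positivity)
    refine h5.trans (le_of_eq ?_)
    field_simp

end Pool.Agent.LISB28
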