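import Mathlib
import Pool.Agent.LISB28.Chain

/-!
# The linear growth for a fixed width, uniformly in the width
-/

set_option autoImplicit false

open MeasureTheory Set Filter Topology

namespace Pool.Agent.LISB28

open Pool.Agent.Lib_helper98.LIS

/-- `G` is at most the area. -/
lemma G_le_volume {A : Set (ℝ × ℝ)} (hA : MeasurableSet A) (hfin : volume A ≠ ⊤) :
    G A ≤ volume.real A := by
  set v := volume.real A with hv
  have h1 : HasSum (fun n : ℕ => (n.choose 1 : ℝ) * v ^ n / (n.factorial : ℝ))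
      (v ^ 1 / (Nat.factorial 1 : ℝ) * Real.exp v) := hasSum_choose v 1
  have h2 := h1.mul_left (Real.exp (-v))
  have h0 := summable_I hA hfin
  have h6 : Summable (fun n : ℕ => Real.exp (-v) / (n.factorial : ℝ) * I A n) :=
    (h0.mul_left (Real.exp (-v))).congr fun n => by ring
  refine (hasSum_le (fun n => ?_) h6.hasSum h2).trans (le_of_eq ?_)
  · have h3 := I_le hA hfin n
    rw [← hv] at h3
    have h5 : Real.exp (-v) / (n.factorial : ℝ) * I A n ≤
      Real.exp (-v) / (n.factorial : ℝ) * (n * v ^ n) :=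
      mul_le_mul_of_nonneg_left h3 (by positivity)
    refine h5.trans (le_of_eq ?_)
    rw [Nat.choose_one_right]
    ring
  · have e : Real.exp (-v) * Real.exp v = 1 := by rw [← Real.exp_add]; simp
    rw [Nat.factorial_one, pow_one, Nat.cast_one, div_one, mul_left_comm, e, mul_one]

/-- The square of side `w` in the rotated coordinates. -/
lemma G_square_le (w : ℝ) (hw : 0 < w) : G (Rect w w) ≤ 11 * w := by
  have hs : 0 < Real.sqrt 2 := by positivity
  have hs2 : Real.sqrt 2 * Real.sqrt 2 = 2 := Real.mul_self_sqrt (by norm_num)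
  have hs3 : Real.sqrt 2 < 1.4143 := by
    rw [Real.sqrt_lt' (by norm_num)]
    norm_num
  rcases le_or_gt w 1 with h1 | h1
  · have := G_le_volume (measurableSet_Rect w w) (by
      rw [volume_Rect w w hw.le hw.le]; exact ENNReal.ofReal_ne_top)
    rw [measureReal_def, volume_Rect w w hw.le hw.le, ENNReal.toReal_ofReal (by positivity)] at this
    nlinarith
  · -- the bounding box
    set S : Set ℝ := Icc (-(Real.sqrt 2 * w / 4)) (3 * (Real.sqrt 2 * w) / 4) with hS
    have hvS : volume S = ENNReal.ofReal (Real.sqrt 2 * w) := by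
      rw [hS, Real.volume_Icc]
      congr 1
      ring
    have hvQ : volume (S ×ˢ S) = ENNReal.ofReal (2 * w ^ 2) := by
      rw [Measure.volume_eq_prod, Measure.prod_prod, hvS, ← ENNReal.ofReal_mul (by positivity)]
      congr 1
      calc Real.sqrt 2 * w * (Real.sqrt 2 * w) = (Real.sqrt 2 * Real.sqrt 2) * w ^ 2 := by ring
        _ = _ := by rw [hs2]
    have hfin : volume (S ×ˢ S) ≠ ⊤ := by rw [hvQ]; exact ENNReal.ofReal_ne_top
    have hsub : Rect w w ⊆ S ×ˢ S := by
      rintro ⟨x, y⟩ hp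
      simp only [Rect, Set.mem_ofPred_eq] at hp
      obtain ⟨hp1, hp2, hp3⟩ := hp
      have hp4 := abs_le.1 hp3
      simp only [hS, Set.mem_prod, Set.mem_Icc]
      refine ⟨⟨?_, ?_⟩, ?_, ?_⟩ <;> linarith [hp4.1, hp4.2]
    have hmono := G_mono (measurableSet_Rect w w) (measurableSet_Icc.prod measurableSet_Icc)
      hsub hfin
    set k : ℕ := ⌈Real.exp 1 * (Real.sqrt 2 * w)⌉₊ with hk
    have hpos : 0 < Real.exp 1 * (Real.sqrt 2 * w) := by positivity
    have hk0 : 0 < k := Nat.ceil_pos.2 hpos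
    have hk1 : Real.exp 1 * (Real.sqrt 2 * w) ≤ k := Nat.le_ceil _
    have hk2 : (k : ℝ) < Real.exp 1 * (Real.sqrt 2 * w) + 1 := Nat.ceil_lt_add_one hpos.le
    have hbox := G_box_le (S := S) (T := S) measurableSet_Icc measurableSet_Icc hfin k hk0
    have hv : volume.real (S ×ˢ S) = (Real.sqrt 2 * w) ^ 2 := by
      rw [measureReal_def, hvQ, ENNReal.toReal_ofReal (by positivity), mul_pow, sq (Real.sqrt 2), hs2]
    rw [hv] at hbox
    -- `(√2 w)^k ≤ k!`
    have hfac : (Real.sqrt 2 * w) ^ k ≤ (k.factorial : ℝ) := by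
      have h3 : (k : ℝ) ^ k / (k.factorial : ℝ) ≤ Real.exp k :=
        Real.pow_div_factorial_le_exp _ (Nat.cast_nonneg k) k
      have h4 : Real.exp (k : ℝ) = (Real.exp 1) ^ k := by
        rw [← Real.exp_nat_mul, mul_one]
      have h5 : (Real.exp 1 * (Real.sqrt 2 * w)) ^ k ≤ (k : ℝ) ^ k :=
        pow_le_pow_left₀ hpos.le hk1 k
      rw [div_le_iff₀ (by positivity), h4] at h3
      rw [mul_pow] at h5
      have h6 : (Real.exp 1) ^ k * (Real.sqrt 2 * w) ^ k ≤ (Real.exp 1) ^ k * (k.factorial : ℝ) :=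
        h5.trans h3
      exact le_of_mul_le_mul_left h6 (by positivity)
    have hle1 : ((Real.sqrt 2 * w) ^ 2) ^ k / (k.factorial : ℝ) ^ 2 ≤ 1 := by
      rw [div_le_one (by positivity), ← pow_mul, mul_comm 2 k, pow_mul]
      exact pow_le_pow_left₀ (by positivity) hfac 2
    have he : Real.exp 1 < 2.7182818286 := Real.exp_one_lt_d9
    have h7 : Real.exp 1 * (Real.sqrt 2 * w) ≤ 4 * w := by
      have : Real.exp 1 * Real.sqrt 2 ≤ 4 := by
        have h8 : 0 < Real.exp 1 := Real.exp_pos 1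
        nlinarith
      nlinarith
    linarith

/-- The speed for the width `w`: the infimum over `ℓ > 0` of `E L / ℓ`. -/
noncomputable def speed (w : ℝ) : ℝ := ⨅ ℓ : Set.Ioi (0 : ℝ), G (Rect ℓ w) / ℓ

lemma speed_bdd (w : ℝ) : BddBelow (Set.range fun ℓ : Set.Ioi (0 : ℝ) => G (Rect ℓ w) / (ℓ : ℝ)) := by
  refine ⟨0, ?_⟩
  rintro _ ⟨ℓ, rfl⟩
  exact div_nonneg (G_nonneg _) (le_of_lt ℓ.2)

lemma speed_le (w ℓ : ℝ) (hℓ : 0 < ℓ) : speed w ≤ G (Rect ℓ w) / ℓ :=
  ciInf_le (speed_bdd w) (⟨ℓ, hℓ⟩ : Set.Ioi (0 : ℝ))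

lemma speed_nonneg (w : ℝ) : 0 ≤ speed w := by
  have : Nonempty (Set.Ioi (0 : ℝ)) := ⟨⟨1, by simp⟩⟩
  exact le_ciInf fun ℓ => div_nonneg (G_nonneg _) (le_of_lt ℓ.2)

lemma le_speed_mul (w ℓ : ℝ) (hw : 0 < w) (hℓ : 0 ≤ ℓ) :
    G (Rect ℓ w) ≤ (ℓ + 2 * w) * speed w := by
  have : Nonempty (Set.Ioi (0 : ℝ)) := ⟨⟨1, by simp⟩⟩
  rw [mul_comm, ← div_le_iff₀ (by positivity)]
  refine le_ciInf fun ℓ' => ?_
  have hℓ' : (0 : ℝ) < ℓ' := ℓ'.2
  rw [div_le_div_iff₀ (by positivity) hℓ']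
  have := G_compare ℓ ℓ' w hℓ hℓ' hw
  linarith

lemma speed_le_const (w : ℝ) (hw : 0 < w) : speed w ≤ 11 := by
  refine (speed_le w w hw).trans ?_
  rw [div_le_iff₀ hw]
  exact G_square_le w hw

lemma speed_le_width (w : ℝ) (hw : 0 < w) : speed w ≤ w := by
  refine (speed_le w 1 one_pos).trans ?_
  rw [div_one]
  refine (G_le_volume (measurableSet_Rect 1 w) (by
      rw [volume_Rect 1 w zero_le_one hw.le]; exact ENNReal.ofReal_ne_top)).trans (le_of_eq ?_)
  rw [measureReal_def, volume_Rect 1 w zero_le_one hw.le, ENNReal.toReal_ofReal (by positivity),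
    one_mul]

/-- The linear law for all widths and all lengths. -/
lemma linear_law (w ℓ : ℝ) (hw : 0 < w) (hℓ : 0 ≤ ℓ) :
    speed w * ℓ ≤ G (Rect ℓ w) ∧ G (Rect ℓ w) ≤ speed w * ℓ + 22 * w := by
  constructor
  · rcases hℓ.eq_or_lt with rfl | h
    · rw [mul_zero]; exact G_nonneg _
    · have := speed_le w ℓ h
      rwa [le_div_iff₀ h] at this
  · have h1 := le_speed_mul w ℓ hw hℓ
    have h2 := speed_le_const w hw
    nlinarith

end Pool.Agent.LISB28
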